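import Pool.Agent.EDX.Stmts3

/-!
# EDX row CPK
-/

set_option autoImplicit false

namespace Pool.Agent.EDX.H29

open Polynomial Finset Pool.Agent.EDG Module Pool.Agent.EDX

theorem cont_it (j : ℕ) : Continuous fun p : ℂ × ℂ => it p.1 p.2 j := by
  induction j with
  | zero => exact continuous_snd
  | succ j ih =>
    simp only [it_succ]
    exact (ih.pow 2).add ((continuous_const.mul continuous_fst).mul ih)

theorem cpk : CpkStmt := by
  have hPc : IsClosed PP := by
    have : PP = {b : ℂ | ‖b‖ ≤ 2} ∩ ⋂ j : ℕ, {b : ℂ | ‖b + it b (-b) j‖ ≤ 2} := by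
      ext b
      simp [PP]
    rw [this]
    refine IsClosed.inter (isClosed_le continuous_norm continuous_const) (isClosed_iInter fun j => ?_)
    refine isClosed_le (Continuous.norm ?_) continuous_const
    have h1 : Continuous fun b : ℂ => it b (-b) j :=
      (cont_it j).comp (continuous_id.prodMk continuous_neg)
    exact continuous_id.add h1
  have hPcomp : IsCompact PP := by
    refine Metric.isCompact_of_isClosed_isBounded hPc ?_
    refine (Metric.isBounded_closedBall (x := (0 : ℂ)) (r := 2)).subset fun b hb => ?_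
    rw [mem_closedBall_zero_iff]
    exact hb.1
  refine ⟨hPcomp, ?_, ?_⟩
  · have hKc : IsClosed KP := by
      have : KP = (Prod.fst ⁻¹' PP) ∩ ⋂ j : ℕ, {p : ℂ × ℂ | ‖p.1 + it p.1 p.2 j‖ ≤ 2} := by
        ext p
        simp [KP]
      rw [this]
      refine IsClosed.inter (hPc.preimage continuous_fst) (isClosed_iInter fun j => ?_)
      exact isClosed_le (Continuous.norm (continuous_fst.add (cont_it j))) continuous_const
    refine Metric.isCompact_of_isClosed_isBounded hKc ?_
    refine (Metric.isBounded_closedBall (x := (0 : ℂ × ℂ)) (r := 4)).subset fun p hp => ?_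
    rw [mem_closedBall_zero_iff, Prod.norm_def]
    have h1 : ‖p.1‖ ≤ 2 := hp.1.1
    have h2 : ‖p.1 + p.2‖ ≤ 2 := by
      have := hp.2 0
      rwa [it_zero] at this
    refine max_le (by linarith) ?_
    have h3 : p.2 = (p.1 + p.2) - p.1 := by ring
    rw [h3]
    exact (norm_sub_le _ _).trans (by linarith)
  · intro b y h j
    refine ⟨h.1, fun i => ?_⟩
    show ‖b + it b (it b y j) i‖ ≤ 2
    rw [← it_add]
    exact h.2 (j + i)

end Pool.Agent.EDX.H29
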