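import Pool.Agent.EDX.Stmts1

/-!
# EDX row GCD
-/

set_option autoImplicit false

namespace Pool.Agent.EDX.H29

open Polynomial Finset Pool.Agent.EDG Module Pool.Agent.EDX

theorem gcd : GcdStmt := by
  intro k₀ K A _ _ _ _ _ m Φ Ξ G A' B' R R' hΦ hΞ hGΦ hGΞ hbez hRR hdeg P hP
  rw [Submodule.mem_inf] at hP
  obtain ⟨hP1, hP2⟩ := hP
  rw [mem_LL] at hP1 hP2 ⊢
  intro f hGf hf
  obtain ⟨Φ₁, rfl⟩ := hGΦ
  obtain ⟨Ξ₁, rfl⟩ := hGΞ
  obtain ⟨f₁, rfl⟩ := hGf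
  have hG : G ≠ 0 := left_ne_zero_of_mul hΦ
  have hΦ₁ : Φ₁ ≠ 0 := right_ne_zero_of_mul hΦ
  have hbez1 : 1 = A' * Φ₁ + B' * Ξ₁ := by
    have : G * 1 = G * (A' * Φ₁ + B' * Ξ₁) := by
      rw [mul_one]
      linear_combination hbez
    exact mul_left_cancel₀ hG this
  have hGb : G.degree ≠ ⊥ := by
    rw [Ne, degree_eq_bot]
    exact hG
  have hdecomp : Φ₁ * (f₁ / Φ₁) + f₁ % Φ₁ = f₁ := EuclideanDomain.div_add_mod f₁ Φ₁
  have hf0 : (f₁ % Φ₁).degree < Φ₁.degree := EuclideanDomain.mod_lt f₁ hΦ₁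
  have hΦR' : (G * Φ₁).degree ≤ (R' : WithBot ℕ) := by
    rw [degree_eq_natDegree hΦ]
    exact_mod_cast (Nat.le_add_right _ _).trans hdeg
  have hRR' : (R' : WithBot ℕ) ≤ (R : WithBot ℕ) := by exact_mod_cast hRR
  -- first part
  have h1 : (G * Φ₁ * (f₁ / Φ₁)).degree < (R : WithBot ℕ) := by
    rcases eq_or_ne (f₁ / Φ₁) 0 with h0 | h0
    · rw [h0, mul_zero, degree_zero]
      exact WithBot.bot_lt_coe _
    · refine lt_of_le_of_lt ?_ hf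
      rw [mul_assoc, degree_mul, degree_mul (p := G) (q := f₁)]
      refine add_le_add_right ?_ _
      have h2 : Φ₁.degree ≤ (Φ₁ * (f₁ / Φ₁)).degree := by
        rw [degree_mul]
        have : (0 : WithBot ℕ) ≤ (f₁ / Φ₁).degree := zero_le_degree_iff.2 h0
        calc Φ₁.degree = Φ₁.degree + 0 := (add_zero _).symm
          _ ≤ _ := add_le_add_right this _
      have h3 : f₁.degree = (Φ₁ * (f₁ / Φ₁)).degree := by
        conv_lhs => rw [← hdecomp]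
        exact degree_add_eq_left_of_degree_lt (hf0.trans_le h2)
      exact h3.ge
  have hz1 : m P (G * Φ₁ * (f₁ / Φ₁)) = 0 := hP1 _ (Dvd.intro _ rfl) h1
  -- second part
  have hGf0 : (G * (f₁ % Φ₁)).degree < (G * Φ₁).degree := by
    rw [degree_mul, degree_mul]
    exact WithBot.add_lt_add_left hGb hf0
  obtain ⟨A'', hA⟩ : Φ₁ ∣ f₁ % Φ₁ - ((f₁ % Φ₁) * B') % Φ₁ * Ξ₁ := by
    have h5 : Φ₁ * ((f₁ % Φ₁) * B' / Φ₁) + ((f₁ % Φ₁) * B') % Φ₁ = (f₁ % Φ₁) * B' :=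
      EuclideanDomain.div_add_mod _ _
    refine ⟨(f₁ % Φ₁) * A' + ((f₁ % Φ₁) * B' / Φ₁) * Ξ₁, ?_⟩
    linear_combination (f₁ % Φ₁) * hbez1 - Ξ₁ * h5
  have hB : (((f₁ % Φ₁) * B') % Φ₁ * (G * Ξ₁)).degree < (R' : WithBot ℕ) := by
    rcases eq_or_ne (((f₁ % Φ₁) * B') % Φ₁) 0 with h0 | h0
    · rw [h0, zero_mul, degree_zero]
      exact WithBot.bot_lt_coe _
    · have h6 : (((f₁ % Φ₁) * B') % Φ₁).degree < Φ₁.degree := EuclideanDomain.mod_lt _ hΦ₁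
      have h7 : (((f₁ % Φ₁) * B') % Φ₁).natDegree < Φ₁.natDegree :=
        natDegree_lt_natDegree h0 h6
      rw [degree_eq_natDegree (mul_ne_zero h0 hΞ), natDegree_mul h0 hΞ]
      have h8 : (G * Φ₁).natDegree = G.natDegree + Φ₁.natDegree := natDegree_mul hG hΦ₁
      have : (((f₁ % Φ₁) * B') % Φ₁).natDegree + (G * Ξ₁).natDegree < R' := by omega
      exact_mod_cast this
  have hz2 : m P (((f₁ % Φ₁) * B') % Φ₁ * (G * Ξ₁)) = 0 := hP2 _ (Dvd.intro_left _ rfl) hB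
  have hid : G * (f₁ % Φ₁) = G * Φ₁ * A'' + ((f₁ % Φ₁) * B') % Φ₁ * (G * Ξ₁) := by
    linear_combination G * hA
  have hA' : G * Φ₁ * A'' = G * (f₁ % Φ₁) - ((f₁ % Φ₁) * B') % Φ₁ * (G * Ξ₁) := by
    linear_combination -hid
  have hAd : (G * Φ₁ * A'').degree < (R : WithBot ℕ) := by
    rw [hA']
    refine lt_of_le_of_lt (degree_sub_le _ _) (max_lt ?_ ?_)
    · exact (hGf0.trans_le hΦR').trans_le hRR'
    · exact hB.trans_le hRR'
  have hz3 : m P (G * Φ₁ * A'') = 0 := hP1 _ (Dvd.intro _ rfl) hAd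
  have hfin : G * f₁ = G * Φ₁ * (f₁ / Φ₁) + (G * Φ₁ * A'' +
      ((f₁ % Φ₁) * B') % Φ₁ * (G * Ξ₁)) := by
    rw [← hid]
    linear_combination -G * hdecomp
  rw [hfin, map_add, map_add, hz1, hz2, hz3]
  simp

end Pool.Agent.EDX.H29
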