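import Pool.Agent.EDX.Stmts3

/-!
# EDX row SVD
-/

set_option autoImplicit false

namespace Pool.Agent.EDX.H29

open Polynomial Finset Pool.Agent.EDG Module Pool.Agent.EDX Matrix

theorem sum_sq_eq {N : ℕ} (u : Fin N → ℂ) :
    ((∑ l, ‖u l‖ ^ 2 : ℝ) : ℂ) = star u ⬝ᵥ u := by
  push_cast
  rw [dotProduct]
  refine sum_congr rfl fun l _ => ?_
  rw [Pi.star_apply, Complex.star_def, ← Complex.normSq_eq_conj_mul_self, Complex.normSq_eq_norm_sq]
  push_cast
  rfl

theorem svd : SvdStmt := by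
  intro N T hT
  have hA : (Tᴴ * T).IsHermitian := isHermitian_conjTranspose_mul_self T
  set W : Matrix (Fin N) (Fin N) ℂ := (hA.eigenvectorUnitary : Matrix (Fin N) (Fin N) ℂ) with hW
  have hW1 : star W * W = 1 := Unitary.coe_star_mul_self hA.eigenvectorUnitary
  have hW2 : W * star W = 1 := Unitary.coe_mul_star_self hA.eigenvectorUnitary
  have hdet : ‖W.det‖ = 1 := by
    have h1 : (star W * W).det = 1 := by rw [hW1, det_one]
    rw [det_mul, star_eq_conjTranspose, det_conjTranspose] at h1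
    have h2 : ‖star W.det * W.det‖ = 1 := by rw [h1, norm_one]
    rw [norm_mul, norm_star] at h2
    nlinarith [norm_nonneg W.det]
  have hWd : W.det ≠ 0 := by
    intro h
    rw [h, norm_zero] at hdet
    exact zero_ne_one hdet
  refine ⟨T * W, ?_, ?_, ?_⟩
  · rw [det_mul]
    exact mul_ne_zero hT hWd
  · have hD : (T * W)ᴴ * (T * W) = diagonal ((RCLike.ofReal : ℝ → ℂ) ∘ hA.eigenvalues) := by
      have hs := hA.spectral_theorem
      rw [conjTranspose_mul, Matrix.mul_assoc, ← Matrix.mul_assoc Tᴴ T W]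
      conv_lhs => rw [hs]
      rw [Unitary.conjStarAlgAut_apply]
      rw [← star_eq_conjTranspose]
      rw [← hW]
      calc star W * (W * diagonal ((RCLike.ofReal : ℝ → ℂ) ∘ hA.eigenvalues) * star W * W)
          = (star W * W) * diagonal ((RCLike.ofReal : ℝ → ℂ) ∘ hA.eigenvalues) * (star W * W) := by
            simp only [Matrix.mul_assoc]
        _ = _ := by rw [hW1, Matrix.one_mul, Matrix.mul_one]
    have hx : ∀ x, ((∑ r, ‖(T * W) r x‖ ^ 2 : ℝ) : ℂ) = ((T * W)ᴴ * (T * W)) x x := by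
      intro x
      rw [sum_sq_eq, dotProduct, Matrix.mul_apply]
      rfl
    have hprod : ((∏ x, (∑ r, ‖(T * W) r x‖ ^ 2) : ℝ) : ℂ) = ((‖T.det‖ ^ 2 : ℝ) : ℂ) := by
      rw [Complex.ofReal_prod]
      have h1 : ∏ x, ((∑ r, ‖(T * W) r x‖ ^ 2 : ℝ) : ℂ) = ((T * W)ᴴ * (T * W)).det := by
        rw [hD, det_diagonal]
        refine prod_congr rfl fun x _ => ?_
        rw [hx x, hD, diagonal_apply_eq]
      rw [h1, det_mul, det_conjTranspose, det_mul, star_mul]
      have h2 : star W.det * star T.det * (T.det * W.det) =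
          (star T.det * T.det) * (star W.det * W.det) := by ring
      rw [h2, Complex.star_def, ← Complex.normSq_eq_conj_mul_self, ← Complex.normSq_eq_conj_mul_self,
        Complex.normSq_eq_norm_sq, Complex.normSq_eq_norm_sq, hdet]
      simp
    exact le_of_eq (by exact_mod_cast hprod)
  · intro v
    have hinv : (T * W)⁻¹ = star W * T⁻¹ := by
      rw [Matrix.mul_inv_rev]
      congr 1
      exact Matrix.inv_eq_left_inv hW1
    rw [hinv, ← mulVec_mulVec]
    have h1 : ∀ u : Fin N → ℂ, ∑ l, ‖(star W *ᵥ u) l‖ ^ 2 = ∑ l, ‖u l‖ ^ 2 := by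
      intro u
      have h2 : ((∑ l, ‖(star W *ᵥ u) l‖ ^ 2 : ℝ) : ℂ) = ((∑ l, ‖u l‖ ^ 2 : ℝ) : ℂ) := by
        rw [sum_sq_eq, sum_sq_eq, star_mulVec, ← dotProduct_mulVec, mulVec_mulVec,
          star_eq_conjTranspose, conjTranspose_conjTranspose, ← star_eq_conjTranspose, hW2,
          one_mulVec]
      exact_mod_cast h2
    exact h1 _

end Pool.Agent.EDX.H29
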